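import Pool.Agent.H34PG.Main

/-!
# Hadamard matrices of order `4 (q + 1 + m)` for prime powers `q = - 1 - 2 m` modulo `2 ^ t m`

Here `m = 2 ^ i (r + 1)` with `r = 1` or `r` a prime power that is `3` modulo `4`, or more generally
`m = 2 g` for the length `g` of a negaperiodic Golay pair. The case `m = 2` is `PrimePowerPlusThree`.

Let `q + 1 = m s`. The dicyclic group of order `2 m` acts on the plane over the field with `q`
elements (the quadratic extension field), preserving the alternating form, with `s` orbits of size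
`2 m` up to scalars. So the skew Paley conference matrix `C` of order `q + 1` commutes with `f ⊗ I`
for the Hadamard matrix `f` of order `m` given by the negaperiodic Golay pair. The matrix of order
`4 m (s + 1)` is `U ⊗ J + V ⊗ K` with a border of width `4 m`, `J = [1 1; 1 1]`, `K = [1 -1; -1 1]`,
`U = [C + I, f ⊗ I; (f ⊗ I)ᵀ, C - I]` and `V = [0, f ⊗ D; f ⊗ D, 0]`, where `D` is a skew conference
matrix of order `s + 2` with two rows and columns deleted (it exists by the asymptotic existence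
theorem for skew-Hadamard matrices of the starting files).
-/

namespace Pool.Agent.Results.MP_d8b1b3_co.PrimePowerGolayOrders

/-- There is a negaperiodic Golay pair of length `g`: two sequences `x`, `y` of `1` and `-1` with
`x (i + g) = - x i`, `y (i + g) = - y i` such that the sum of `x i * x (i + w) + y i * y (i + w)` over
`i = 0, ..., g - 1` is `0` for `w = 1, ..., g - 1`. -/
def NegaGolay (g : ℕ) : Prop :=
  0 < g ∧ ∃ x y : ℕ → ℤ, (∀ i, x i = 1 ∨ x i = -1) ∧ (∀ i, y i = 1 ∨ y i = -1) ∧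
    (∀ i, x (i + g) = - x i) ∧ (∀ i, y (i + g) = - y i) ∧
    ∀ w, 0 < w → w < g → ∑ i ∈ Finset.range g, (x i * x (i + w) + y i * y (i + w)) = 0

theorem result : ∃ C : ℕ, ∀ n q t m : ℕ, IsPrimePow q → q ≤ (fun x : ℕ => 2 ^ x)^[n] 1 →
    2 ^ C ^ (n + 1) ≤ t →
    ((∃ i r : ℕ, (r = 1 ∨ (IsPrimePow r ∧ r % 4 = 3)) ∧ m = 2 ^ i * (r + 1)) ∨
      (∃ g, NegaGolay g ∧ m = 2 * g)) →
    2 ^ t * m ∣ q + 1 + 2 * m →
    ∃ H : Matrix (Fin (4 * (q + 1 + m))) (Fin (4 * (q + 1 + m))) ℤ,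
      (∀ i j, H i j = 1 ∨ H i j = -1) ∧
      H * H.transpose = ((4 * (q + 1 + m) : ℕ) : ℤ) •
        (1 : Matrix (Fin (4 * (q + 1 + m))) (Fin (4 * (q + 1 + m))) ℤ) := by
  obtain ⟨C, h⟩ := Pool.Agent.H34PG.main_golay
  refine ⟨C, fun n q t m hq hqn ht hm hd => ?_⟩
  obtain ⟨g, hg, rfl⟩ : ∃ g, Pool.Agent.H34PG.NegaGolay g ∧ m = 2 * g := by
    rcases hm with ⟨i, r, hr | ⟨hr, hr4⟩, rfl⟩ | ⟨g, hg, rfl⟩
    · refine ⟨2 ^ i * 1, Pool.Agent.H34PG.NegaGolay.one.pow_mul i, ?_⟩
      rw [hr]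
      ring
    · refine ⟨2 ^ i * ((r + 1) / 2), (Pool.Agent.H34PG.NegaGolay.paley hr hr4).pow_mul i, ?_⟩
      have h1 : r + 1 = 2 * ((r + 1) / 2) := by omega
      conv_lhs => rw [h1]
      ring
    · exact ⟨g, hg, rfl⟩
  refine h n q t g hq hqn ht hg ?_
  have h1 : q + 1 + 4 * g = q + 1 + 2 * (2 * g) := by ring
  rw [h1]
  exact hd

end Pool.Agent.Results.MP_d8b1b3_co.PrimePowerGolayOrders
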